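import Pool.Agent.Helper32_ABCT.Stmts2
import Pool.Agent.Helper32_ABCT.NWf
import Pool.Agent.Helper32_ABCT.Api3

/-!
# Balanced representation of the limit points of a 2-sum (MP_a17fcb_ag, modules DTD, DDS)
-/

open MvPolynomial

namespace ABCT

open FlatCell

theorem eval₂_nat_pos {G : Type} (u : G → ℝ) (hu : ∀ h, 0 < u h) (f : MvPolynomial G ℕ)
    (hf : f ≠ 0) : 0 < eval₂ (Nat.castRingHom ℝ) u f := by
  rw [eval₂_eq]
  apply Finset.sum_pos
  · intro d hd
    apply mul_pos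
    · exact Nat.cast_pos.mpr (Nat.pos_of_ne_zero (mem_support_iff.mp hd))
    · exact Finset.prod_pos fun i _ => pow_pos (hu i) _
  · exact support_nonempty.mpr hf

theorem Z_pos {S : Net} (hS : S.Valid) {z : Finset ℕ → ℝ} (hz : z ∈ S.flat.Z) :
    (∀ I ∈ S.M, 0 < z I) ∧ (∀ I, I ∉ S.M → z I = 0) := by
  obtain ⟨x, hx, rfl⟩ := hz
  have w := Net.wf' S hS
  constructor
  · intro I hI
    rw [ev_eq]
    exact mul_pos (Finset.prod_pos fun i _ => hx _)
      (eval₂_nat_pos _ (fun h => hx _) _ ((w.ne I).mpr hI))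
  · intro I hI
    rw [ev_eq]
    have : S.Δ I = 0 := by
      by_contra h
      exact hI ((w.ne I).mp h)
    show _ * eval₂ _ _ (S.Δ I) = 0
    rw [this, eval₂_zero, mul_zero]

theorem clZ_nonneg {S : Net} (hS : S.Valid) {z : Finset ℕ → ℝ} (hz : z ∈ closure S.flat.Z)
    (I : Finset ℕ) : 0 ≤ z I := by
  have hc : IsClosed {z : Finset ℕ → ℝ | 0 ≤ z I} :=
    isClosed_le continuous_const (continuous_apply I)
  refine closure_minimal ?_ hc hz
  intro y hy
  by_cases h : I ∈ S.M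
  · exact ((Z_pos hS hy).1 I h).le
  · exact ((Z_pos hS hy).2 I h).ge

theorem clZ_supp {S : Net} (hS : S.Valid) {z : Finset ℕ → ℝ} (hz : z ∈ closure S.flat.Z)
    (I : Finset ℕ) (hI : I ∉ S.M) : z I = 0 := by
  have hc : IsClosed {z : Finset ℕ → ℝ | z I = 0} :=
    isClosed_eq (continuous_apply I) continuous_const
  exact closure_minimal (fun y hy => (Z_pos hS hy).2 I hI) hc hz

/-- scaling by `α` off the label `q` and by `β` on the label `q` -/
theorem Z_scale {S : Net} (hS : S.Valid) (hr : 1 ≤ S.rk) (q : ℕ) {α β : ℝ} (ha : 0 < α)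
    (hb : 0 < β) {z : Finset ℕ → ℝ} (hz : z ∈ S.flat.Z) :
    (fun I => (if q ∈ I then β else α) * z I) ∈ S.flat.Z := by
  obtain ⟨x, hx, rfl⟩ := hz
  have w := Net.wf' S hS
  obtain ⟨τ, hτ, hτr⟩ : ∃ τ : ℝ, 0 < τ ∧ τ ^ S.rk = α := by
    refine ⟨α ^ ((S.rk : ℝ)⁻¹), Real.rpow_pos_of_pos ha _, ?_⟩
    exact Real.rpow_inv_natCast_pow ha.le (by omega)
  refine ⟨fun v => match v with
    | Sum.inl i => x (Sum.inl i) * (τ * if i = q then β / α else 1)
    | Sum.inr h => x (Sum.inr h), ?_, ?_⟩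
  · intro v
    rcases v with i | h
    · show 0 < x (Sum.inl i) * (τ * if i = q then β / α else 1)
      apply mul_pos (hx _) (mul_pos hτ _)
      split_ifs
      · positivity
      · norm_num
    · exact hx _
  · funext I
    by_cases hI : I ∈ S.M
    · rw [ev_eq, ev_eq]
      show _ = (∏ i ∈ I, (x (Sum.inl i) * (τ * if i = q then β / α else 1))) * _
      rw [Finset.prod_mul_distrib, Finset.prod_mul_distrib, Finset.prod_const, w.card I hI, hτr,
        Finset.prod_ite_eq']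
      split_ifs with h
      · field_simp
      · ring
    · have : S.Δ I = 0 := by
        by_contra h
        exact hI ((w.ne I).mp h)
      rw [ev_eq, ev_eq]
      show _ * (_ * eval₂ _ _ (S.Δ I)) = _ * eval₂ _ _ (S.Δ I)
      rw [this, eval₂_zero, mul_zero, mul_zero, mul_zero]

theorem continuous_comb (A : Finset ℕ) (q : ℕ) :
    Continuous fun p : (Finset ℕ → ℝ) × (Finset ℕ → ℝ) => comb A q p.1 p.2 := by
  apply continuous_pi
  intro I
  unfold comb
  by_cases h : q ∈ I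
  · simp only [h, if_true]
    exact continuous_const
  · simp only [h, if_false]
    fun_prop

theorem continuous_prodv (A : Finset ℕ) :
    Continuous fun p : (Finset ℕ → ℝ) × (Finset ℕ → ℝ) => prodv A p.1 p.2 := by
  apply continuous_pi
  intro I
  unfold prodv
  fun_prop

/-- the closure of a product -/
theorem image2_closure {f : (Finset ℕ → ℝ) × (Finset ℕ → ℝ) → Finset ℕ → ℝ} (hf : Continuous f)
    {s t u : Set (Finset ℕ → ℝ)} (h : ∀ y ∈ s, ∀ x ∈ t, f (y, x) ∈ u) {y x : Finset ℕ → ℝ}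
    (hy : y ∈ closure s) (hx : x ∈ closure t) : f (y, x) ∈ closure u := by
  have h1 : (y, x) ∈ closure (s ×ˢ t) := by
    rw [closure_prod_eq]
    exact ⟨hy, hx⟩
  have h2 := image_closure_subset_closure_image hf ⟨_, h1, rfl⟩
  refine closure_mono ?_ h2
  rintro _ ⟨⟨a, b⟩, ⟨ha, hb⟩, rfl⟩
  exact h a ha b hb

theorem comb_scale (A : Finset ℕ) (q : ℕ) {a b : ℝ} (ha : a ≠ 0) (hb : b ≠ 0)
    (y x : Finset ℕ → ℝ) :
    comb A q (fun I => (if q ∈ I then b else a) * y I)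
      (fun I => (if q ∈ I then a⁻¹ else b⁻¹) * x I) = comb A q y x := by
  funext I
  unfold comb
  split_ifs with h
  · rfl
  · have h1 : q ∉ I ∩ A := fun h' => h (Finset.mem_inter.mp h').1
    have h2 : q ∉ I \ A := fun h' => h (Finset.mem_sdiff.mp h').1
    simp only [h1, h2, if_false, Finset.mem_insert_self, if_true]
    field_simp

section tsum

variable {S T : Net} {q : ℕ}

theorem sdiff_eq' {A B I : Finset ℕ} (hI : I ⊆ A ∪ B) (hd : Disjoint A B) : I \ A = I ∩ B := by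
  ext x
  simp only [Finset.mem_sdiff, Finset.mem_inter]
  constructor
  · rintro ⟨h1, h2⟩
    have := hI h1
    rw [Finset.mem_union] at this
    exact ⟨h1, this.resolve_left h2⟩
  · rintro ⟨h1, h2⟩
    exact ⟨h1, fun h => Finset.disjoint_left.mp hd h h2⟩

theorem comb_apply (h : (Net.tsum S T q).Valid) {y x : Finset ℕ → ℝ}
    (hx : ∀ I, I ∉ T.M → x I = 0) {J K : Finset ℕ} (hJ : J ∈ S.M)
    (hK : K ∈ T.M) (hX : q ∈ K ↔ q ∉ J) :
    comb (S.E.erase q) q y x ((J ∪ K).erase q) = y J * x K := by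
  obtain ⟨h1, h2, h3, h4, h5, h6, h7, h8⟩ := h
  have wS := Net.wf' S h1
  have wT := Net.wf' T h2
  obtain ⟨e1, e2⟩ := tsum_split (q := q) (wS.sub J hJ) (wT.sub K hK) h7
  have hI : (J ∪ K).erase q ⊆ S.E.erase q ∪ T.E.erase q := by
    intro x hx
    rw [Finset.mem_erase, Finset.mem_union] at hx
    rw [Finset.mem_union, Finset.mem_erase, Finset.mem_erase]
    rcases hx.2 with h | h
    · exact Or.inl ⟨hx.1, wS.sub J hJ h⟩
    · exact Or.inr ⟨hx.1, wT.sub K hK h⟩
  have e3 := sdiff_eq' hI h7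
  unfold comb
  rw [if_neg (Finset.notMem_erase _ _), e3, e1, e2]
  by_cases hq : q ∈ K
  · have hq' := hX.mp hq
    rw [Finset.erase_eq_of_notMem hq', Finset.insert_erase hq]
    have : x (K.erase q) = 0 := by
      apply hx
      intro h'
      have c1 := wT.card _ h'
      have c2 := wT.card _ hK
      rw [Finset.card_erase_of_mem hq] at c1
      omega
    rw [this]; ring
  · have hq' : q ∈ J := by
      by_contra h'
      exact hq (hX.mpr h')
    rw [Finset.erase_eq_of_notMem hq, Finset.insert_erase hq']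
    have : x (insert q K) = 0 := by
      apply hx
      intro h'
      have c1 := wT.card _ h'
      have c2 := wT.card _ hK
      rw [Finset.card_insert_of_notMem hq] at c1
      omega
    rw [this]; ring

theorem tsum_mem {J K : Finset ℕ} (hJ : J ∈ S.M) (hK : K ∈ T.M) (hX : q ∈ K ↔ q ∉ J) :
    (J ∪ K).erase q ∈ (Net.tsum S T q).M := by
  rw [Net.M, Finset.mem_image]
  refine ⟨(J, K), ?_, rfl⟩
  rw [Finset.mem_filter, Finset.mem_product]
  refine ⟨⟨hJ, hK⟩, ?_⟩
  by_cases hq : q ∈ K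
  · exact Or.inr ⟨hX.mp hq, hq⟩
  · exact Or.inl ⟨by by_contra h'; exact hq (hX.mpr h'), hq⟩

/-- support of `comb` on subsets -/
theorem comb_symm (h : (Net.tsum S T q).Valid) {y x : Finset ℕ → ℝ}
    (hy : ∀ I, I ∉ S.M → y I = 0) (hx : ∀ I, I ∉ T.M → x I = 0) :
    comb (S.E.erase q) q y x = comb (T.E.erase q) q x y := by
  obtain ⟨h1, h2, h3, h4, h5, h6, h7, h8⟩ := h
  have wS := Net.wf' S h1
  have wT := Net.wf' T h2
  funext I
  unfold comb
  split_ifs with hq
  · rfl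
  by_cases hI : I ⊆ S.E.erase q ∪ T.E.erase q
  · have e1 := sdiff_eq' hI h7
    have hI' : I ⊆ T.E.erase q ∪ S.E.erase q := by rwa [Finset.union_comm]
    have e2 := sdiff_eq' hI' h7.symm
    rw [e1, e2]
    ring
  · obtain ⟨a, ha, hb⟩ := Finset.not_subset.mp hI
    rw [Finset.mem_union, not_or] at hb
    have haq : a ≠ q := fun h => hq (h ▸ ha)
    have haS : a ∉ S.E := fun h => hb.1 (Finset.mem_erase.mpr ⟨haq, h⟩)
    have haT : a ∉ T.E := fun h => hb.2 (Finset.mem_erase.mpr ⟨haq, h⟩)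
    have x1 : x (insert q (I \ S.E.erase q)) = 0 := by
      apply hx
      intro h'
      exact haT (wT.sub _ h' (Finset.mem_insert_of_mem (Finset.mem_sdiff.mpr ⟨ha, hb.1⟩)))
    have x2 : x (I \ S.E.erase q) = 0 := by
      apply hx
      intro h'
      exact haT (wT.sub _ h' (Finset.mem_sdiff.mpr ⟨ha, hb.1⟩))
    have y1 : y (insert q (I \ T.E.erase q)) = 0 := by
      apply hy
      intro h'
      exact haS (wS.sub _ h' (Finset.mem_insert_of_mem (Finset.mem_sdiff.mpr ⟨ha, hb.2⟩)))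
    have y2 : y (I \ T.E.erase q) = 0 := by
      apply hy
      intro h'
      exact haS (wS.sub _ h' (Finset.mem_sdiff.mpr ⟨ha, hb.2⟩))
    rw [x1, x2, y1, y2]
    ring

/-- balanced scaling of one pair -/
theorem bal_pair (h : (Net.tsum S T q).Valid) {y x : Finset ℕ → ℝ} (hy : y ∈ S.flat.Z)
    (hx : x ∈ T.flat.Z) :
    ∃ y' ∈ S.flat.Z, ∃ x' ∈ T.flat.Z,
      comb (S.E.erase q) q y' x' = comb (S.E.erase q) q y x ∧
      ((T.M.filter fun K => q ∈ K).Nonempty → ∑ K ∈ T.M.filter (fun K => q ∈ K), x' K = 1) ∧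
      ((T.M.filter fun K => q ∉ K).Nonempty → ∑ K ∈ T.M.filter (fun K => q ∉ K), x' K = 1) := by
  obtain ⟨h1, h2, h3, h4, h5, h6, h7, h8⟩ := h
  have px := (Z_pos h2 hx).1
  set a : ℝ := if (T.M.filter fun K => q ∈ K).Nonempty then
    ∑ K ∈ T.M.filter (fun K => q ∈ K), x K else 1 with ha
  set b : ℝ := if (T.M.filter fun K => q ∉ K).Nonempty then
    ∑ K ∈ T.M.filter (fun K => q ∉ K), x K else 1 with hb
  have ha0 : 0 < a := by
    rw [ha]
    split_ifs with h'
    · exact Finset.sum_pos (fun K hK => px K (Finset.mem_filter.mp hK).1) h'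
    · norm_num
  have hb0 : 0 < b := by
    rw [hb]
    split_ifs with h'
    · exact Finset.sum_pos (fun K hK => px K (Finset.mem_filter.mp hK).1) h'
    · norm_num
  refine ⟨_, Z_scale h1 h3 q ha0 hb0 hy, _, Z_scale h2 h4 q (inv_pos.mpr hb0) (inv_pos.mpr ha0) hx,
    comb_scale _ q ha0.ne' hb0.ne' y x, ?_, ?_⟩
  · intro h'
    have : ∀ K ∈ T.M.filter (fun K => q ∈ K), (if q ∈ K then a⁻¹ else b⁻¹) * x K = a⁻¹ * x K := by
      intro K hK
      rw [if_pos (Finset.mem_filter.mp hK).2]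
    rw [Finset.sum_congr rfl this, ← Finset.mul_sum]
    have e : ∑ K ∈ T.M.filter (fun K => q ∈ K), x K = a := by rw [ha, if_pos h']
    rw [e, inv_mul_cancel₀ ha0.ne']
  · intro h'
    have : ∀ K ∈ T.M.filter (fun K => q ∉ K), (if q ∈ K then a⁻¹ else b⁻¹) * x K = b⁻¹ * x K := by
      intro K hK
      rw [if_neg (Finset.mem_filter.mp hK).2]
    rw [Finset.sum_congr rfl this, ← Finset.mul_sum]
    have e : ∑ K ∈ T.M.filter (fun K => q ∉ K), x K = b := by rw [hb, if_pos h']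
    rw [e, inv_mul_cancel₀ hb0.ne']

/-- each element of `S.M` has a partner in `T.M` -/
theorem partner (h : (Net.tsum S T q).Valid) {J : Finset ℕ} (hJ : J ∈ S.M) :
    ∃ K ∈ T.M, (q ∈ K ↔ q ∉ J) := by
  obtain ⟨h1, h2, h3, h4, h5, h6, h7, h8⟩ := h
  have wT := Net.wf' T h2
  rcases h8 with ⟨-, ⟨K1, hK1, hq1⟩, ⟨K2, hK2, hq2⟩⟩ | ⟨hl, hc⟩ | ⟨hc, hl⟩
  · by_cases hq : q ∈ J
    · exact ⟨K2, hK2, by simp [hq, hq2]⟩
    · exact ⟨K1, hK1, by simp [hq, hq1]⟩
  · obtain ⟨K, hK⟩ := wT.nonempty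
    exact ⟨K, hK, by simp [hc K hK, hl J hJ]⟩
  · obtain ⟨K, hK⟩ := wT.nonempty
    exact ⟨K, hK, by simp [hl K hK, hc J hJ]⟩

theorem isClosed_sum_eq (F : Finset (Finset ℕ)) :
    IsClosed {x : Finset ℕ → ℝ | F.Nonempty → ∑ K ∈ F, x K = 1} := by
  by_cases h : F.Nonempty
  · have : {x : Finset ℕ → ℝ | F.Nonempty → ∑ K ∈ F, x K = 1} = {x | ∑ K ∈ F, x K = 1} := by
      ext x; simp [h]
    rw [this]
    exact isClosed_eq (continuous_finsetSum _ fun K _ => continuous_apply K) continuous_const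
  · have : {x : Finset ℕ → ℝ | F.Nonempty → ∑ K ∈ F, x K = 1} = Set.univ := by
      ext x; simp [h]
    rw [this]
    exact isClosed_univ

/-- balanced representation of the limit points of a 2-sum -/
theorem tsum_rep (hZ : ZnetStmt) (h : (Net.tsum S T q).Valid) {z : Finset ℕ → ℝ}
    (hz : z ∈ closure (Net.tsum S T q).flat.Z) :
    ∃ y ∈ closure S.flat.Z, ∃ x ∈ closure T.flat.Z, z = comb (S.E.erase q) q y x ∧
      ∀ K₀ ∈ T.M, ∃ K ∈ T.M, 0 < x K ∧ (q ∈ K ↔ q ∈ K₀) := by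
  have hh := h
  obtain ⟨h1, h2, h3, h4, h5, h6, h7, h8⟩ := h
  have wS := Net.wf' S h1
  have wT := Net.wf' T h2
  set N := (Net.tsum S T q) with hN
  set C : ℝ := ∑ I ∈ N.M, z I + 1 with hC
  set B : ℝ := T.M.card * C with hB
  let W : Set ((Finset ℕ → ℝ) × (Finset ℕ → ℝ)) :=
    (closure S.flat.Z ×ˢ closure T.flat.Z) ∩
      (((Set.univ.pi fun _ : Finset ℕ => Set.Icc (0:ℝ) B) ×ˢ
        (Set.univ.pi fun _ : Finset ℕ => Set.Icc (0:ℝ) 1)) ∩
      (Prod.snd ⁻¹' {x | (T.M.filter fun K => q ∈ K).Nonempty →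
          ∑ K ∈ T.M.filter (fun K => q ∈ K), x K = 1} ∩
       Prod.snd ⁻¹' {x | (T.M.filter fun K => q ∉ K).Nonempty →
          ∑ K ∈ T.M.filter (fun K => q ∉ K), x K = 1}))
  have hWc : IsCompact W := by
    have hcp : IsCompact ((Set.univ.pi fun _ : Finset ℕ => Set.Icc (0:ℝ) B) ×ˢ
        (Set.univ.pi fun _ : Finset ℕ => Set.Icc (0:ℝ) 1)) :=
      (isCompact_univ_pi fun _ => isCompact_Icc).prod (isCompact_univ_pi fun _ => isCompact_Icc)
    refine hcp.of_isClosed_subset ?_ ?_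
    · refine IsClosed.inter (isClosed_closure.prod isClosed_closure) ?_
      refine IsClosed.inter hcp.isClosed ?_
      exact IsClosed.inter ((isClosed_sum_eq _).preimage continuous_snd)
        ((isClosed_sum_eq _).preimage continuous_snd)
    · rintro p ⟨-, h, -⟩
      exact h
  have hU : IsOpen {z' : Finset ℕ → ℝ | ∑ I ∈ N.M, z' I < C} :=
    isOpen_lt (continuous_finsetSum _ fun K _ => continuous_apply K) continuous_const
  have hzU : z ∈ closure ({z' : Finset ℕ → ℝ | ∑ I ∈ N.M, z' I < C} ∩ N.flat.Z) := by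
    apply hU.inter_closure
    refine ⟨?_, hz⟩
    show ∑ I ∈ N.M, z I < C
    rw [hC]; linarith
  have hsub : {z' : Finset ℕ → ℝ | ∑ I ∈ N.M, z' I < C} ∩ N.flat.Z ⊆
      (fun p : (Finset ℕ → ℝ) × (Finset ℕ → ℝ) => comb (S.E.erase q) q p.1 p.2) '' W := by
    rintro z' ⟨hz1, hz2⟩
    have hz3 := Z_pos hh hz2
    rw [hN, hZ.1 S T q hh] at hz2
    obtain ⟨y0, hy0, x0, hx0, rfl⟩ := hz2
    obtain ⟨y, hy, x, hx, he, hs1, hs0⟩ := bal_pair hh hy0 hx0
    rw [← he] at hz1 hz3 ⊢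
    have py := Z_pos h1 hy
    have px := Z_pos h2 hx
    have hnn : ∀ I, 0 ≤ comb (S.E.erase q) q y x I := by
      intro I
      by_cases hI : I ∈ N.M
      · exact (hz3.1 I hI).le
      · exact (hz3.2 I hI).ge
    have hx01 : ∀ I, x I ∈ Set.Icc (0:ℝ) 1 := by
      intro I
      by_cases hI : I ∈ T.M
      · refine ⟨(px.1 I hI).le, ?_⟩
        by_cases hq : q ∈ I
        · have hm : I ∈ T.M.filter (fun K => q ∈ K) := Finset.mem_filter.mpr ⟨hI, hq⟩
          rw [← hs1 ⟨I, hm⟩]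
          exact Finset.single_le_sum (f := x)
            (fun K hK => (px.1 K (Finset.mem_filter.mp hK).1).le) hm
        · have hm : I ∈ T.M.filter (fun K => q ∉ K) := Finset.mem_filter.mpr ⟨hI, hq⟩
          rw [← hs0 ⟨I, hm⟩]
          exact Finset.single_le_sum (f := x)
            (fun K hK => (px.1 K (Finset.mem_filter.mp hK).1).le) hm
      · rw [px.2 I hI]; simp
    have hprod : ∀ J ∈ S.M, ∀ K ∈ T.M, (q ∈ K ↔ q ∉ J) → y J * x K ≤ C := by
      intro J hJ K hK hX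
      rw [← comb_apply hh px.2 hJ hK hX]
      have hm := tsum_mem hJ hK hX
      refine le_trans (Finset.single_le_sum (f := comb (S.E.erase q) q y x)
        (fun I _ => hnn I) hm) (le_of_lt hz1)
    have hC0 : 0 ≤ C := le_trans (Finset.sum_nonneg fun I _ => hnn I) (le_of_lt hz1)
    refine ⟨(y, x), ⟨⟨subset_closure hy, subset_closure hx⟩, ⟨?_, fun I _ => hx01 I⟩, hs1, hs0⟩,
      rfl⟩
    intro J _
    show y J ∈ Set.Icc 0 B
    by_cases hJ : J ∈ S.M
    · refine ⟨(py.1 J hJ).le, ?_⟩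
      obtain ⟨K0, hK0, hX0⟩ := partner hh hJ
      have key : ∀ F : Finset (Finset ℕ), F ⊆ T.M → (∀ K ∈ F, (q ∈ K ↔ q ∉ J)) →
          ∑ K ∈ F, x K = 1 → y J ≤ B := by
        intro F hF hFX hF1
        calc y J = ∑ K ∈ F, y J * x K := by rw [← Finset.mul_sum, hF1, mul_one]
          _ ≤ ∑ K ∈ F, C := Finset.sum_le_sum fun K hK => hprod J hJ K (hF hK) (hFX K hK)
          _ = F.card * C := by rw [Finset.sum_const, nsmul_eq_mul]
          _ ≤ B := by
            rw [hB]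
            exact mul_le_mul_of_nonneg_right (Nat.cast_le.mpr (Finset.card_le_card hF)) hC0
      by_cases hq : q ∈ J
      · have hK0' : q ∉ K0 := fun h => (hX0.mp h) hq
        refine key _ (Finset.filter_subset _ _) ?_
          (hs0 ⟨K0, Finset.mem_filter.mpr ⟨hK0, hK0'⟩⟩)
        intro K hK
        simp [(Finset.mem_filter.mp hK).2, hq]
      · have hK0' : q ∈ K0 := hX0.mpr hq
        refine key _ (Finset.filter_subset _ _) ?_
          (hs1 ⟨K0, Finset.mem_filter.mpr ⟨hK0, hK0'⟩⟩)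
        intro K hK
        simp [(Finset.mem_filter.mp hK).2, hq]
    · rw [py.2 J hJ]
      exact ⟨le_refl _, mul_nonneg (Nat.cast_nonneg _) hC0⟩
  have hcl : IsClosed ((fun p : (Finset ℕ → ℝ) × (Finset ℕ → ℝ) =>
      comb (S.E.erase q) q p.1 p.2) '' W) :=
    (hWc.image (continuous_comb _ q)).isClosed
  obtain ⟨⟨y, x⟩, ⟨⟨hy, hx⟩, -, hs1, hs0⟩, rfl⟩ := closure_minimal hsub hcl hzU
  refine ⟨y, hy, x, hx, rfl, ?_⟩
  intro K0 hK0
  have key : ∀ F : Finset (Finset ℕ), ∑ K ∈ F, x K = 1 → ∃ K ∈ F, 0 < x K := by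
    intro F hF
    by_contra hcon
    push Not at hcon
    have : ∑ K ∈ F, x K ≤ 0 := Finset.sum_nonpos hcon
    rw [hF] at this
    linarith
  by_cases hq : q ∈ K0
  · obtain ⟨K, hK, hK'⟩ := key _ (hs1 ⟨K0, Finset.mem_filter.mpr ⟨hK0, hq⟩⟩)
    exact ⟨K, (Finset.mem_filter.mp hK).1, hK', by simp [(Finset.mem_filter.mp hK).2, hq]⟩
  · obtain ⟨K, hK, hK'⟩ := key _ (hs0 ⟨K0, Finset.mem_filter.mpr ⟨hK0, hq⟩⟩)
    exact ⟨K, (Finset.mem_filter.mp hK).1, hK', by simp [(Finset.mem_filter.mp hK).2, hq]⟩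

/-- closure transfer -/
theorem tsum_cl (hZ : ZnetStmt) (h : (Net.tsum S T q).Valid) {y x : Finset ℕ → ℝ}
    (hy : y ∈ closure S.flat.Z) (hx : x ∈ closure T.flat.Z) :
    comb (S.E.erase q) q y x ∈ closure (Net.tsum S T q).flat.Z := by
  refine image2_closure (continuous_comb (S.E.erase q) q) ?_ hy hx
  intro a ha b hb
  rw [hZ.1 S T q h]
  exact ⟨a, ha, b, hb, rfl⟩

theorem dsum_cl (hZ : ZnetStmt) (h : (Net.dsum S T).Valid) {y x : Finset ℕ → ℝ}
    (hy : y ∈ closure S.flat.Z) (hx : x ∈ closure T.flat.Z) :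
    prodv S.E y x ∈ closure (Net.dsum S T).flat.Z := by
  refine image2_closure (continuous_prodv S.E) ?_ hy hx
  intro a ha b hb
  rw [hZ.2 S T h]
  exact ⟨a, ha, b, hb, rfl⟩

/-- scaling in the closure -/
theorem clZ_scale (hS : S.Valid) (hr : 1 ≤ S.rk) (q : ℕ) {α β : ℝ} (ha : 0 < α) (hb : 0 < β)
    {z : Finset ℕ → ℝ} (hz : z ∈ closure S.flat.Z) :
    (fun I => (if q ∈ I then β else α) * z I) ∈ closure S.flat.Z := by
  have hc : Continuous fun (z : Finset ℕ → ℝ) (I : Finset ℕ) => (if q ∈ I then β else α) * z I := by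
    fun_prop
  have h2 := image_closure_subset_closure_image hc ⟨_, hz, rfl⟩
  refine closure_mono ?_ h2
  rintro _ ⟨a, ha', rfl⟩
  exact Z_scale hS hr q ha hb ha'

/-- degeneration of the coordinates with `q` (`q` becomes a loop) -/
theorem clZ_off (hS : S.Valid) (hr : 1 ≤ S.rk) (q : ℕ) {z : Finset ℕ → ℝ}
    (hz : z ∈ closure S.flat.Z) : (fun I => if q ∈ I then 0 else z I) ∈ closure S.flat.Z := by
  have hc : Continuous fun β : ℝ => (fun I : Finset ℕ => (if q ∈ I then β else 1) * z I) := by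
    apply continuous_pi
    intro I
    split_ifs <;> fun_prop
  have h0 : (0 : ℝ) ∈ closure (Set.Ioi (0:ℝ)) := by
    rw [closure_Ioi]; exact Set.self_mem_Ici
  have h2 := image_closure_subset_closure_image hc ⟨_, h0, rfl⟩
  have h3 : closure ((fun β : ℝ => (fun I : Finset ℕ => (if q ∈ I then β else 1) * z I)) ''
      Set.Ioi (0:ℝ)) ⊆ closure S.flat.Z := by
    apply closure_minimal _ isClosed_closure
    rintro _ ⟨β, hβ, rfl⟩
    exact clZ_scale hS hr q one_pos hβ hz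
  have h4 := h3 h2
  convert h4 using 1
  funext I
  by_cases h : q ∈ I <;> simp [h]

/-- degeneration of the coordinates without `q` (`q` becomes a coloop) -/
theorem clZ_on (hS : S.Valid) (hr : 1 ≤ S.rk) (q : ℕ) {z : Finset ℕ → ℝ}
    (hz : z ∈ closure S.flat.Z) : (fun I => if q ∈ I then z I else 0) ∈ closure S.flat.Z := by
  have hc : Continuous fun β : ℝ => (fun I : Finset ℕ => (if q ∈ I then 1 else β) * z I) := by
    apply continuous_pi
    intro I
    split_ifs <;> fun_prop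
  have h0 : (0 : ℝ) ∈ closure (Set.Ioi (0:ℝ)) := by
    rw [closure_Ioi]; exact Set.self_mem_Ici
  have h2 := image_closure_subset_closure_image hc ⟨_, h0, rfl⟩
  have h3 : closure ((fun β : ℝ => (fun I : Finset ℕ => (if q ∈ I then 1 else β) * z I)) ''
      Set.Ioi (0:ℝ)) ⊆ closure S.flat.Z := by
    apply closure_minimal _ isClosed_closure
    rintro _ ⟨β, hβ, rfl⟩
    exact clZ_scale hS hr q hβ one_pos hz
  have h4 := h3 h2
  convert h4 using 1
  funext I
  by_cases h : q ∈ I <;> simp [h]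

/-- swapping the two sides -/
theorem tsum_Z_symm (hZ : ZnetStmt) (h : (Net.tsum S T q).Valid) :
    (Net.tsum S T q).flat.Z = (Net.tsum T S q).flat.Z := by
  rw [hZ.1 S T q h, hZ.1 T S q h.tsum_symm]
  ext z
  constructor
  · rintro ⟨y, hy, x, hx, rfl⟩
    exact ⟨x, hx, y, hy, comb_symm h (Z_pos h.1 hy).2 (Z_pos h.2.1 hx).2⟩
  · rintro ⟨y, hy, x, hx, rfl⟩
    exact ⟨x, hx, y, hy, comb_symm h.tsum_symm (Z_pos h.2.1 hy).2 (Z_pos h.1 hx).2⟩

theorem tsum_M_symm (S T : Net) (q : ℕ) : (Net.tsum S T q).M = (Net.tsum T S q).M := by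
  ext I
  simp only [Net.M, Finset.mem_image, Finset.mem_filter, Finset.mem_product, Prod.exists]
  constructor
  · rintro ⟨J, K, ⟨⟨h1, h2⟩, h3⟩, rfl⟩
    exact ⟨K, J, ⟨⟨h2, h1⟩, by tauto⟩, by rw [Finset.union_comm]⟩
  · rintro ⟨J, K, ⟨⟨h1, h2⟩, h3⟩, rfl⟩
    exact ⟨K, J, ⟨⟨h2, h1⟩, by tauto⟩, by rw [Finset.union_comm]⟩

end tsum

end ABCT
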