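import Pool.Agent.Helper11_ABCT.Bal

/-!
# DDS: conditions (B) and (D) for direct sums (MP_a17fcb_ag)
-/

open MvPolynomial

namespace ABCT

open FlatCell

theorem rank0_Z (hZ : ZnetStmt) : ∀ S : Net, S.Valid → S.rk = 0 → ∀ z ∈ S.flat.Z, z ∅ = 1
  | .black l, _, hr, _, _ => by simp [Net.rk] at hr
  | .white l, hV, hr, z, hz => by
      have hl : l.Nonempty := hV
      obtain ⟨x, hx, rfl⟩ := hz
      rw [ev_eq]
      have hr' : l.card - 1 = 0 := hr
      have hc : l.card = 1 := by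
        have := Finset.card_pos.mpr hl
        omega
      obtain ⟨a, rfl⟩ := Finset.card_eq_one.mp hc
      have hm : (∅ : Finset ℕ) ∈ (Net.white {a}).M := by simp [Net.M]
      show (∏ i ∈ (∅ : Finset ℕ), x (Sum.inl i)) * eval₂ _ _ (Net.Δ (Net.white {a}) ∅) = 1
      rw [Net.Δ, if_pos hm]
      simp
  | .gen l r, hV, hr, _, _ => by
      have h1 : 2 ≤ r := hV.2.1
      have h2 : r = 0 := hr
      omega
  | .dsum S T, hV, hr, z, hz => by
      have hr' : S.rk + T.rk = 0 := hr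
      rw [hZ.2 S T hV] at hz
      obtain ⟨y, hy, x, hx, rfl⟩ := hz
      have e1 := rank0_Z hZ S hV.1 (by omega) y hy
      have e2 := rank0_Z hZ T hV.2.1 (by omega) x hx
      simp [prodv, e1, e2]
  | .tsum S T q, hV, hr, _, _ => by
      have h1 : 1 ≤ S.rk := hV.2.2.1
      have h2 : 1 ≤ T.rk := hV.2.2.2.1
      have h3 : S.rk + T.rk - 1 = 0 := hr
      omega

theorem rank0_sum (hZ : ZnetStmt) {S : Net} (hV : S.Valid) (hr : S.rk = 0) {z : Finset ℕ → ℝ}
    (hz : z ∈ S.flat.Z) : ∑ I ∈ S.M, z I = 1 := by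
  have w := Net.wf' S hV
  have hM : S.M = {∅} := by
    ext I
    rw [Finset.mem_singleton]
    constructor
    · intro hI
      have := w.card I hI
      rw [hr] at this
      exact Finset.card_eq_zero.mp this
    · rintro rfl
      obtain ⟨J, hJ⟩ := w.nonempty
      have := w.card J hJ
      rw [hr] at this
      rwa [Finset.card_eq_zero.mp this] at hJ
  rw [hM, Finset.sum_singleton]
  exact rank0_Z hZ S hV hr z hz

section

variable {S T : Net}

theorem dsum_split {A B J K : Finset ℕ} (hJ : J ⊆ A) (hK : K ⊆ B) (hd : Disjoint A B) :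
    (J ∪ K) ∩ A = J ∧ (J ∪ K) \ A = K := by
  rw [Finset.disjoint_left] at hd
  constructor
  · ext x
    simp only [Finset.mem_inter, Finset.mem_union]
    constructor
    · rintro ⟨h1 | h1, h2⟩
      · exact h1
      · exact absurd (hK h1) (hd h2)
    · intro h; exact ⟨Or.inl h, hJ h⟩
  · ext x
    simp only [Finset.mem_sdiff, Finset.mem_union]
    constructor
    · rintro ⟨h1 | h1, h2⟩
      · exact absurd (hJ h1) h2
      · exact h1
    · intro h; exact ⟨Or.inr h, fun h' => hd h' (hK h)⟩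

theorem prodv_apply (h : (Net.dsum S T).Valid) (y x : Finset ℕ → ℝ) {J K : Finset ℕ}
    (hJ : J ∈ S.M) (hK : K ∈ T.M) : prodv S.E y x (J ∪ K) = y J * x K := by
  have wS := Net.wf' S h.1
  have wT := Net.wf' T h.2.1
  obtain ⟨e1, e2⟩ := dsum_split (wS.sub J hJ) (wT.sub K hK) h.2.2
  rw [prodv, e1, e2]

theorem dsum_mem {J K : Finset ℕ} (hJ : J ∈ S.M) (hK : K ∈ T.M) : J ∪ K ∈ (Net.dsum S T).M := by
  rw [dsum_M]
  exact ⟨J, hJ, K, hK, rfl⟩

theorem dsum_decode {S' T' : Net} (hS : ∀ I ∈ S'.M, I ⊆ S.E) (hT : ∀ I ∈ T'.M, I ⊆ T.E)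
    (hd : Disjoint S.E T.E) {J K : Finset ℕ} (hJ : J ⊆ S.E) (hK : K ⊆ T.E)
    (hm : J ∪ K ∈ (Net.dsum S' T').M) : J ∈ S'.M ∧ K ∈ T'.M := by
  rw [dsum_M] at hm
  obtain ⟨J', hJ', K', hK', e⟩ := hm
  obtain ⟨e1, e2⟩ := dsum_split hJ hK hd
  obtain ⟨e3, e4⟩ := dsum_split (hS J' hJ') (hT K' hK') hd
  rw [← e, e1] at e3
  rw [← e, e2] at e4
  rw [e3, e4]
  exact ⟨hJ', hK'⟩

/-- normalised pair -/
theorem dsum_pair (hZ : ZnetStmt) (h : (Net.dsum S T).Valid) {y x : Finset ℕ → ℝ}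
    (hy : y ∈ S.flat.Z) (hx : x ∈ T.flat.Z) :
    ∃ y' ∈ S.flat.Z, ∃ x' ∈ T.flat.Z, prodv S.E y' x' = prodv S.E y x ∧
      (∑ J ∈ S.M, y' J = 1 ∨ ∑ K ∈ T.M, x' K = 1) := by
  by_cases hr : S.rk = 0
  · exact ⟨y, hy, x, hx, rfl, Or.inl (rank0_sum hZ h.1 hr hy)⟩
  by_cases hr' : T.rk = 0
  · exact ⟨y, hy, x, hx, rfl, Or.inr (rank0_sum hZ h.2.1 hr' hx)⟩
  have px := (Z_pos h.2.1 hx).1
  have wT := Net.wf' T h.2.1
  have hs : 0 < ∑ K ∈ T.M, x K := Finset.sum_pos px wT.nonempty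
  set s := ∑ K ∈ T.M, x K with hs'
  have h1 := Z_scale h.1 (by omega) 0 hs hs hy
  have h2 := Z_scale h.2.1 (by omega) 0 (inv_pos.mpr hs) (inv_pos.mpr hs) hx
  simp only [ite_self] at h1 h2
  refine ⟨_, h1, _, h2, ?_, Or.inr ?_⟩
  · funext I
    simp only [prodv]
    field_simp
  · rw [← Finset.mul_sum, ← hs', inv_mul_cancel₀ hs.ne']

/-- representation of the limit points of a direct sum -/
theorem dsum_rep (hZ : ZnetStmt) (h : (Net.dsum S T).Valid) {z : Finset ℕ → ℝ}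
    (hz : z ∈ closure (Net.dsum S T).flat.Z) :
    ∃ y ∈ closure S.flat.Z, ∃ x ∈ closure T.flat.Z, z = prodv S.E y x := by
  have wS := Net.wf' S h.1
  have wT := Net.wf' T h.2.1
  set N := (Net.dsum S T) with hN
  set C : ℝ := ∑ I ∈ N.M, z I + 1 with hC
  set B : ℝ := 1 + T.M.card * C + S.M.card * C with hB
  let W : Set ((Finset ℕ → ℝ) × (Finset ℕ → ℝ)) :=
    (closure S.flat.Z ×ˢ closure T.flat.Z) ∩
      ((Set.univ.pi fun _ : Finset ℕ => Set.Icc (0:ℝ) B) ×ˢ
        (Set.univ.pi fun _ : Finset ℕ => Set.Icc (0:ℝ) B))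
  have hWc : IsCompact W := by
    have hcp : IsCompact ((Set.univ.pi fun _ : Finset ℕ => Set.Icc (0:ℝ) B) ×ˢ
        (Set.univ.pi fun _ : Finset ℕ => Set.Icc (0:ℝ) B)) :=
      (isCompact_univ_pi fun _ => isCompact_Icc).prod (isCompact_univ_pi fun _ => isCompact_Icc)
    exact hcp.inter_left (isClosed_closure.prod isClosed_closure)
  have hU : IsOpen {z' : Finset ℕ → ℝ | ∑ I ∈ N.M, z' I < C} :=
    isOpen_lt (continuous_finsetSum _ fun K _ => continuous_apply K) continuous_const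
  have hzU : z ∈ closure ({z' : Finset ℕ → ℝ | ∑ I ∈ N.M, z' I < C} ∩ N.flat.Z) := by
    apply hU.inter_closure
    refine ⟨?_, hz⟩
    show ∑ I ∈ N.M, z I < C
    rw [hC]; linarith
  have hsub : {z' : Finset ℕ → ℝ | ∑ I ∈ N.M, z' I < C} ∩ N.flat.Z ⊆
      (fun p : (Finset ℕ → ℝ) × (Finset ℕ → ℝ) => prodv S.E p.1 p.2) '' W := by
    rintro z' ⟨hz1, hz2⟩
    have hz3 := Z_pos h hz2
    rw [hN, hZ.2 S T h] at hz2
    obtain ⟨y0, hy0, x0, hx0, rfl⟩ := hz2
    obtain ⟨y, hy, x, hx, he, hs⟩ := dsum_pair hZ h hy0 hx0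
    rw [← he] at hz1 hz3 ⊢
    have py := Z_pos h.1 hy
    have px := Z_pos h.2.1 hx
    have hnn : ∀ I, 0 ≤ prodv S.E y x I := by
      intro I
      by_cases hI : I ∈ N.M
      · exact (hz3.1 I hI).le
      · exact (hz3.2 I hI).ge
    have hprod : ∀ J ∈ S.M, ∀ K ∈ T.M, y J * x K ≤ C := by
      intro J hJ K hK
      rw [← prodv_apply h y x hJ hK]
      refine le_trans (Finset.single_le_sum (f := prodv S.E y x)
        (fun I _ => hnn I) (dsum_mem hJ hK)) (le_of_lt hz1)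
    have hC0 : 0 ≤ C := le_trans (Finset.sum_nonneg fun I _ => hnn I) (le_of_lt hz1)
    have hB0 : 0 ≤ B := by positivity
    have hT0 : 0 ≤ (T.M.card : ℝ) * C := by positivity
    have hS0 : 0 ≤ (S.M.card : ℝ) * C := by positivity
    have hxy : (∀ J ∈ S.M, y J ≤ B) ∧ (∀ K ∈ T.M, x K ≤ B) := by
      rcases hs with hs | hs
      · constructor
        · intro J hJ
          have : y J ≤ 1 := by
            rw [← hs]
            exact Finset.single_le_sum (f := y) (fun K hK => (py.1 K hK).le) hJ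
          rw [hB]; linarith
        · intro K hK
          have : x K ≤ S.M.card * C := by
            calc x K = ∑ J ∈ S.M, y J * x K := by rw [← Finset.sum_mul, hs, one_mul]
              _ ≤ ∑ J ∈ S.M, C := Finset.sum_le_sum fun J hJ => hprod J hJ K hK
              _ = S.M.card * C := by rw [Finset.sum_const, nsmul_eq_mul]
          rw [hB]; linarith
      · constructor
        · intro J hJ
          have : y J ≤ T.M.card * C := by
            calc y J = ∑ K ∈ T.M, y J * x K := by rw [← Finset.mul_sum, hs, mul_one]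
              _ ≤ ∑ K ∈ T.M, C := Finset.sum_le_sum fun K hK => hprod J hJ K hK
              _ = T.M.card * C := by rw [Finset.sum_const, nsmul_eq_mul]
          rw [hB]; linarith
        · intro K hK
          have : x K ≤ 1 := by
            rw [← hs]
            exact Finset.single_le_sum (f := x) (fun K hK => (px.1 K hK).le) hK
          rw [hB]; linarith
    refine ⟨(y, x), ⟨⟨subset_closure hy, subset_closure hx⟩, ?_, ?_⟩, rfl⟩
    · intro J _
      show y J ∈ Set.Icc 0 B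
      by_cases hJ : J ∈ S.M
      · exact ⟨(py.1 J hJ).le, hxy.1 J hJ⟩
      · rw [py.2 J hJ]; exact ⟨le_refl _, hB0⟩
    · intro J _
      show x J ∈ Set.Icc 0 B
      by_cases hJ : J ∈ T.M
      · exact ⟨(px.1 J hJ).le, hxy.2 J hJ⟩
      · rw [px.2 J hJ]; exact ⟨le_refl _, hB0⟩
  have hcl : IsClosed ((fun p : (Finset ℕ → ℝ) × (Finset ℕ → ℝ) => prodv S.E p.1 p.2) '' W) :=
    (hWc.image (continuous_prodv _)).isClosed
  obtain ⟨⟨y, x⟩, ⟨⟨hy, hx⟩, -⟩, rfl⟩ := closure_minimal hsub hcl hzU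
  exact ⟨y, hy, x, hx, rfl⟩

theorem prodv_zero_left (A : Finset ℕ) (x : Finset ℕ → ℝ) : prodv A 0 x = 0 := by
  funext I; simp [prodv]

theorem prodv_zero_right (A : Finset ℕ) (y : Finset ℕ → ℝ) : prodv A y 0 = 0 := by
  funext I; simp [prodv]

end

/-- DDS -/
theorem ddsum (hW : WfStmt) (hZ : ZnetStmt) (hF : FacetStmt) : BDdsumStmt := by
  intro S T h hSB hTB hSD hTD
  have wS := Net.wf' S h.1
  have wT := Net.wf' T h.2.1
  constructor
  · intro z hz hz0 hzZ
    obtain ⟨y, hy, x, hx, rfl⟩ := dsum_rep hZ h hz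
    have hy0 : y ≠ 0 := by
      rintro rfl; exact hz0 (prodv_zero_left _ _)
    have hx0 : x ≠ 0 := by
      rintro rfl; exact hz0 (prodv_zero_right _ _)
    by_cases hyZ : y ∈ S.flat.Z
    · have hxZ : x ∉ T.flat.Z := by
        intro hxZ
        apply hzZ
        rw [hZ.2 S T h]
        exact ⟨y, hyZ, x, hxZ, rfl⟩
      obtain ⟨T', hT', hxT'⟩ := hTB x hx hx0 hxZ
      refine ⟨_, Net.Facet.dsumR S T T' hT', ?_⟩
      exact dsum_cl hZ (hF _ _ h (Net.Facet.dsumR S T T' hT')).1 hy hxT'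
    · obtain ⟨S', hS', hyS'⟩ := hSB y hy hy0 hyZ
      refine ⟨_, Net.Facet.dsumL S T S' hS', ?_⟩
      have := dsum_cl hZ (hF _ _ h (Net.Facet.dsumL S T S' hS')).1 hyS' hx
      rwa [(hF _ _ h.1 hS').2.1] at this
  · intro N' hN' z hz hz0 hsup
    have hV' : N'.Valid := (hF _ _ h hN').1
    obtain ⟨y, hy, x, hx, rfl⟩ := dsum_rep hZ h hz
    have sy := clZ_supp h.1 hy
    have sx := clZ_supp h.2.1 hx
    have hy0 : y ≠ 0 := by
      rintro rfl; exact hz0 (prodv_zero_left _ _)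
    have hx0 : x ≠ 0 := by
      rintro rfl; exact hz0 (prodv_zero_right _ _)
    obtain ⟨J0, hJ0⟩ : ∃ J, y J ≠ 0 := by
      by_contra hcon
      push Not at hcon
      exact hy0 (funext hcon)
    obtain ⟨K0, hK0⟩ : ∃ K, x K ≠ 0 := by
      by_contra hcon
      push Not at hcon
      exact hx0 (funext hcon)
    have mJ : ∀ J, y J ≠ 0 → J ∈ S.M := fun J hJ => by
      by_contra h'
      exact hJ (sy J h')
    have mK : ∀ K, x K ≠ 0 → K ∈ T.M := fun K hK => by
      by_contra h'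
      exact hK (sx K h')
    have hm : ∀ J K, y J ≠ 0 → x K ≠ 0 → J ∪ K ∈ N'.M := by
      intro J K hJ hK
      apply hsup
      rw [prodv_apply h y x (mJ J hJ) (mK K hK)]
      exact mul_ne_zero hJ hK
    cases hN' with
    | dsumL _ _ S' hf =>
      obtain ⟨f1, f2, f3, f4⟩ := hF S S' h.1 hf
      have hy' : y ∈ closure S'.flat.Z := by
        apply hSD S' hf y hy hy0
        intro J hJ
        refine (dsum_decode (S := S) (T := T) ?_ ?_ h.2.2 (wS.sub J (mJ J hJ))
          (wT.sub K0 (mK K0 hK0)) (hm J K0 hJ hK0)).1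
        · intro I hI
          rw [← f2]
          exact ((hW S' f1).2 I hI).1
        · exact wT.sub
      have := dsum_cl hZ hV' hy' hx
      rwa [f2] at this
    | dsumR _ _ T' hf =>
      obtain ⟨f1, f2, f3, f4⟩ := hF T T' h.2.1 hf
      have hx' : x ∈ closure T'.flat.Z := by
        apply hTD T' hf x hx hx0
        intro K hK
        refine (dsum_decode (S := S) (T := T) ?_ ?_ h.2.2 (wS.sub J0 (mJ J0 hJ0))
          (wT.sub K (mK K hK)) (hm J0 K hJ0 hK)).2
        · exact wS.sub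
        · intro I hI
          rw [← f2]
          exact ((hW T' f1).2 I hI).1
      exact dsum_cl hZ hV' hy hx'

end ABCT
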