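import Pool.Agent.Helper11_ABCT.Bal

/-!
# DTD: condition (D) for 2-sums (MP_a17fcb_ag)
-/

open MvPolynomial

namespace ABCT

open FlatCell

section

variable {S T : Net} {q : ℕ}

/-- support of the left factor: `y J ≠ 0`, `x K ≠ 0`, `q` in exactly one of them. -/
theorem comb_ne (h : (Net.tsum S T q).Valid) {y x : Finset ℕ → ℝ}
    (hy : ∀ I, I ∉ S.M → y I = 0) (hx : ∀ I, I ∉ T.M → x I = 0) {J K : Finset ℕ}
    (hJ : y J ≠ 0) (hK : x K ≠ 0) (hX : q ∈ K ↔ q ∉ J) :
    comb (S.E.erase q) q y x ((J ∪ K).erase q) ≠ 0 := by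
  have hJ' : J ∈ S.M := by
    by_contra h'
    exact hJ (hy J h')
  have hK' : K ∈ T.M := by
    by_contra h'
    exact hK (hx K h')
  rw [comb_apply h hx hJ' hK' hX]
  exact mul_ne_zero hJ hK

/-- decoding an element `(J ∪ K) \ q` of `(tsum S' T' q).M` -/
theorem tsum_decode {S' T' : Net} (hS : ∀ I ∈ S'.M, I ⊆ S.E ∧ I.card = S.rk)
    (hT : ∀ I ∈ T'.M, I ⊆ T.E ∧ I.card = T.rk)
    (hd : Disjoint (S.E.erase q) (T.E.erase q)) {J K : Finset ℕ} (hJ : J ⊆ S.E) (hK : K ⊆ T.E)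
    (hJc : J.card = S.rk) (hKc : K.card = T.rk)
    (hm : (J ∪ K).erase q ∈ (Net.tsum S' T' q).M) : J ∈ S'.M ∧ K ∈ T'.M := by
  rw [tsum_M] at hm
  obtain ⟨J', hJ', K', hK', hX', e⟩ := hm
  obtain ⟨e1, e2⟩ := tsum_split (q := q) hJ hK hd
  obtain ⟨e3, e4⟩ := tsum_split (q := q) (hS J' hJ').1 (hT K' hK').1 hd
  rw [← e, e1] at e3
  rw [← e, e2] at e4
  have c1 := (hS J' hJ').2
  have c2 := (hT K' hK').2
  have key : ∀ A B : Finset ℕ, A.erase q = B.erase q → A.card = B.card → (q ∈ A ↔ q ∈ B) := by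
    intro A B hAB hc
    by_cases h1 : q ∈ A
    · by_cases h2 : q ∈ B
      · simp [h1, h2]
      · exfalso
        have := congrArg Finset.card hAB
        rw [Finset.card_erase_of_mem h1, Finset.erase_eq_of_notMem h2] at this
        have hp : 0 < A.card := Finset.card_pos.mpr ⟨q, h1⟩
        omega
    · by_cases h2 : q ∈ B
      · exfalso
        have := congrArg Finset.card hAB
        rw [Finset.card_erase_of_mem h2, Finset.erase_eq_of_notMem h1] at this
        have hp : 0 < B.card := Finset.card_pos.mpr ⟨q, h2⟩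
        omega
      · simp [h1, h2]
  have key2 : ∀ A B : Finset ℕ, A.erase q = B.erase q → A.card = B.card → A = B := by
    intro A B hAB hc
    have hq := key A B hAB hc
    ext a
    by_cases ha : a = q
    · rw [ha]; exact hq
    · have := Finset.ext_iff.mp hAB a
      simpa [ha] using this
  have hJJ := key2 J J' e3 (by omega)
  have hKK := key2 K K' e4 (by omega)
  rw [hJJ, hKK]
  exact ⟨hJ', hK'⟩

/-- the left facets -/
theorem hasD_left (hW : WfStmt) (hZ : ZnetStmt) (hF : FacetStmt) (h : (Net.tsum S T q).Valid)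
    (hS : S.HasD) {S' : Net} (hfac : Net.Facet (Net.tsum S T q) (Net.tsum S' T q))
    (hf : Net.Facet S S') {z : Finset ℕ → ℝ} (hz : z ∈ closure (Net.tsum S T q).flat.Z)
    (hz0 : z ≠ 0) (hsup : ∀ I, z I ≠ 0 → I ∈ (Net.tsum S' T q).M) :
    z ∈ closure (Net.tsum S' T q).flat.Z := by
  have hh := h
  obtain ⟨h1, h2, h3, h4, h5, h6, h7, h8⟩ := h
  obtain ⟨y, hy, x, hx, rfl, hK⟩ := tsum_rep hZ hh hz
  have sy := clZ_supp h1 hy
  have sx := clZ_supp h2 hx
  obtain ⟨f1, f2, f3, f4⟩ := hF S S' h1 hf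
  have wS := Net.wf' S h1
  have wT := Net.wf' T h2
  have hy' : y ∈ closure S'.flat.Z := by
    apply hS S' hf y hy
    · rintro rfl
      apply hz0
      funext I
      unfold comb
      split_ifs <;> simp
    · intro J hJ
      have hJ' : J ∈ S.M := by
        by_contra h'
        exact hJ (sy J h')
      obtain ⟨K0, hK0, hX0⟩ := partner hh hJ'
      obtain ⟨K, hKm, hKp, hKq⟩ := hK K0 hK0
      have hX : q ∈ K ↔ q ∉ J := hKq.trans hX0
      have := hsup _ (comb_ne hh sy sx hJ hKp.ne' hX)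
      refine (tsum_decode (S := S) (T := T) ?_ ?_ h7 (wS.sub J hJ') (wT.sub K hKm) (wS.card J hJ')
        (wT.card K hKm) this).1
      · intro I hI
        rw [← f2, ← f3]
        exact (hW S' f1).2 I hI
      · intro I hI
        exact (hW T h2).2 I hI
  have hV' : (Net.tsum S' T q).Valid := (hF _ _ hh hfac).1
  have := tsum_cl hZ hV' hy' hx
  rwa [f2] at this

/-- the facets in which `q` dies: `q` becomes a loop on the left, a coloop on the right -/
theorem hasD_both (hW : WfStmt) (hZ : ZnetStmt) (hF : FacetStmt) (h : (Net.tsum S T q).Valid)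
    (hS : S.HasD) (hT : T.HasD) (aT : T.Alive q) {S' T' : Net}
    (hfac : Net.Facet (Net.tsum S T q) (Net.tsum S' T' q)) (hf : Net.Facet S S')
    (hg : Net.Facet T T') (hl : S'.Loop q) {z : Finset ℕ → ℝ}
    (hz : z ∈ closure (Net.tsum S T q).flat.Z) (hz0 : z ≠ 0)
    (hsup : ∀ I, z I ≠ 0 → I ∈ (Net.tsum S' T' q).M) :
    z ∈ closure (Net.tsum S' T' q).flat.Z := by
  have hh := h
  obtain ⟨h1, h2, h3, h4, h5, h6, h7, h8⟩ := h
  obtain ⟨y, hy, x, hx, rfl, hK⟩ := tsum_rep hZ hh hz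
  have sy := clZ_supp h1 hy
  have sx := clZ_supp h2 hx
  obtain ⟨f1, f2, f3, f4⟩ := hF S S' h1 hf
  obtain ⟨g1, g2, g3, g4⟩ := hF T T' h2 hg
  have wS := Net.wf' S h1
  have wT := Net.wf' T h2
  have dec : ∀ J K : Finset ℕ, y J ≠ 0 → x K ≠ 0 → (q ∈ K ↔ q ∉ J) → J ∈ S'.M ∧ K ∈ T'.M := by
    intro J K hJ hKx hX
    have hJ' : J ∈ S.M := by
      by_contra h'
      exact hJ (sy J h')
    have hK' : K ∈ T.M := by
      by_contra h'
      exact hKx (sx K h')
    have := hsup _ (comb_ne hh sy sx hJ hKx hX)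
    refine tsum_decode (S := S) (T := T) ?_ ?_ h7 (wS.sub J hJ') (wT.sub K hK') (wS.card J hJ')
        (wT.card K hK') this
    · intro I hI
      rw [← f2, ← f3]
      exact (hW S' f1).2 I hI
    · intro I hI
      rw [← g2, ← g3]
      exact (hW T' g1).2 I hI
  obtain ⟨⟨K1, hK1, hq1⟩, -⟩ := aT
  have hyq : ∀ J, q ∈ J → y J = 0 := by
    intro J hq
    by_contra hJ
    have hJ' : J ∈ S.M := by
      by_contra h'
      exact hJ (sy J h')
    obtain ⟨K0, hK0, hX0⟩ := partner hh hJ'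
    obtain ⟨K, hKm, hKp, hKq⟩ := hK K0 hK0
    exact hl J (dec J K hJ hKp.ne' (hKq.trans hX0)).1 hq
  have hy0 : y ≠ 0 := by
    rintro rfl
    apply hz0
    funext I
    unfold comb
    split_ifs <;> simp
  obtain ⟨J0, hJ0⟩ : ∃ J, y J ≠ 0 := by
    by_contra hcon
    push Not at hcon
    exact hy0 (funext hcon)
  have hJ0q : q ∉ J0 := fun hq => hJ0 (hyq J0 hq)
  obtain ⟨K2, hK2m, hK2p, hK2q⟩ := hK K1 hK1
  have hK2q' : q ∈ K2 := hK2q.mpr hq1
  have hy' : y ∈ closure S'.flat.Z := by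
    apply hS S' hf y hy hy0
    intro J hJ
    have hq : q ∉ J := fun hq => hJ (hyq J hq)
    exact (dec J K2 hJ hK2p.ne' (by simp [hK2q', hq])).1
  have hx1 := clZ_on h2 h4 q hx
  have hx' : (fun I => if q ∈ I then x I else 0) ∈ closure T'.flat.Z := by
    apply hT T' hg _ hx1
    · intro h0
      have := congrFun h0 K2
      simp only [hK2q', if_true, Pi.zero_apply] at this
      exact hK2p.ne' this
    · intro K hKx
      by_cases hq : q ∈ K
      · simp only [hq, if_true] at hKx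
        exact (dec J0 K hJ0 hKx (by simp [hq, hJ0q])).2
      · simp [hq] at hKx
  have hV' : (Net.tsum S' T' q).Valid := (hF _ _ hh hfac).1
  have := tsum_cl hZ hV' hy' hx'
  rw [f2] at this
  convert this using 1
  funext I
  unfold comb
  split_ifs with hq
  · rfl
  · have e1 : q ∉ I \ S.E.erase q := fun h' => hq (Finset.mem_sdiff.mp h').1
    simp only [Finset.mem_insert_self, if_true, e1, if_false]
    rw [hyq _ (Finset.mem_insert_self _ _)]
    ring

end

/-- DTD -/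
theorem dtsum (hW : WfStmt) (hZ : ZnetStmt) (hF : FacetStmt) : DtsumStmt := by
  intro S T q h hS hT N' hN' z hz hz0 hsup
  have hh := h
  obtain ⟨h1, h2, h3, h4, h5, h6, h7, h8⟩ := h
  have hV' : N'.Valid := (hF _ _ hh hN').1
  cases hN' with
  | tsumL _ _ S' _ hq hf =>
    exact hasD_left hW hZ hF hh hS (Net.Facet.tsumL S T S' q hq hf) hf hz hz0 hsup
  | tsumR _ _ T' _ hq hf =>
    rw [tsum_Z_symm hZ hh] at hz
    rw [tsum_M_symm] at hsup
    rw [tsum_Z_symm hZ hV']
    exact hasD_left hW hZ hF hh.tsum_symm hT (Net.Facet.tsumL T S T' q hq hf) hf hz hz0 hsup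
  | tsumB _ _ S' T' _ aS aT hq hf hg =>
    rcases hq with ⟨hl, hc⟩ | ⟨hc, hl⟩
    · exact hasD_both hW hZ hF hh hS hT aT
        (Net.Facet.tsumB S T S' T' q aS aT (Or.inl ⟨hl, hc⟩) hf hg) hf hg hl hz hz0 hsup
    · rw [tsum_Z_symm hZ hh] at hz
      rw [tsum_M_symm] at hsup
      rw [tsum_Z_symm hZ hV']
      exact hasD_both hW hZ hF hh.tsum_symm hT hS aS
        (Net.Facet.tsumB T S T' S' q aT aS (Or.inl ⟨hl, hc⟩) hg hf) hg hf hl hz hz0 hsup

end ABCT
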